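import Pool.Agent.H49.DM.PA
import Pool.Agent.H23.DF.TargetsG

/-!
# Board dmf_modules, row PA: Poisson summation and the separation of the variables
-/

set_option autoImplicit false

open NumberField NumberField.InfinitePlace NumberField.Units
  NumberField.Units.dirichletUnitTheorem MeasureTheory Set Filter Complex
open scoped nonZeroDivisors ENNReal

namespace Pool.Agent.H49.DF.PA

open Pool.Agent.H25.HK Pool.Agent.H23.LB Pool.Agent.H23.LC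
open Pool.Agent.H28.RC (Rep ft T_RX)
open Pool.Agent.H29.DW (dg Rl lf wv Pos Wg cpar Ci om zs rv Wt)
open Pool.Agent.H31.SW (EE itg FF HD DB DS dif Pf GG G2 DD PP pF dK pz ps Tf WG Rl_mul Rl_div
  Rl_ofReal W_WS)
open Pool.Agent.H27.TM
open Pool.Agent.H13.TM (wt_anti wt_one mc_eq norm_mc_ge Rl_zeta int_prod TT Rl_mc norm_TT
  norm_ca norm_kp measurable_kp measurable_El volume_S4_lt measurableSet_S4 continuous_G3 G3_zero
  sum_int)
open Pool.Agent.H49.DM.PA (T2 norm_T2 meas_T2 per_delta regroup mem_of_two coset_sum)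
open Pool.Agent.H23.DM (cm OQ de)
open Pool.Agent.H23.DF (Nh F_LN F_DV F_PA)

open scoped Classical in
theorem pf_PA (hPO : Pool.Agent.H31.SX.X_PO) (hRX : T_RX) (hLA : M_LA) (hLS : M_LS)
    (hE1 : M_E1) (hWS : W_WS) (hLN : F_LN) (hDV : F_DV) :
    F_PA := by
  intro n q Ψ N hn hq hΨ hN
  obtain ⟨C₁, hC₁, hLA'⟩ := hLA q Ψ hq hΨ N
  refine ⟨C₁, hC₁.le, ?_⟩
  intro K _ _ hfin l r H F₀ M y ω ρ G α A ι I qq E W D₀ hl hl2 hr hH hF₀ hM hω hρ hGα hFT hE hA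
  have hLAv : ∀ v : InfinitePlace K, ∃ F F₁ Q : ℂ → ℂ → ℂ,
      Sep (rv v) (α v) (G v) (q (rv v)) (Ψ (rv v)) F F₁ Q ∧ ∀ s, Am N C₁ (rv v) (Q s) :=
    fun v => hLA' (rv v) (α v) (G v) (hGα v).2.1 (hGα v).2.2.1 (hGα v).1 (hGα v).2.2.2
  choose F F₁ Q hSep hAm using hLAv
  obtain ⟨_, _, _, _, hDDj, hNz⟩ := hLN K H F₀ hH hF₀
  set j : Ideal (𝓞 K) := l * H with hj
  have hj0 : j ≠ ⊥ := by
    intro h
    rcases Ideal.mul_eq_bot.1 h with h2 | h2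
    · exact hl h2
    · exact hH h2
  have hjM : (j : FI K) * M ≠ 0 := (hDDj j M y hj0 hM).1
  obtain ⟨X, hX, _⟩ := hRX K j M hj0 hM
  have hAf : A.Finite := by
    obtain ⟨CD, _, hDV'⟩ := hDV n hn 1 one_pos
    exact (hDV' K hfin l H F₀ M y ω α A hl hH hF₀ hM hω (fun v => (hGα v).2.1)
      (fun δ hδ => ⟨(hFT.mem δ hδ).2, hA δ hδ⟩)).1
  set D : Finset K := hAf.toFinset with hD
  have hDm : ∀ δ, δ ∈ D ↔ δ ∈ A := fun δ => hAf.mem_toFinset
  have hD0 : ∀ δ ∈ D, δ ≠ 0 := fun δ hδ => (hFT.mem δ ((hDm δ).1 hδ)).1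
  have hφ : ∀ δ : K, ∃ φ : K → ℂ, (∀ ξ, ‖φ ξ‖ ≤ 1) ∧ (δ ∈ A → ∀ i ∈ I, ∀ X : Finset K,
      Rep K (l * H) M X →
      ∀ ξ ∈ du K (((l * H : Ideal (𝓞 K)) : FI K) * M),
      ft K X (cm l r M ρ δ (qq i)) ξ =
        ((W : ℝ) : ℂ) * φ ξ * E i (δ * ξ)) := by
    intro δ
    by_cases h : δ ∈ A
    · obtain ⟨φ, h1, h2⟩ := hFT.ft δ h
      exact ⟨φ, h1, fun _ => h2⟩
    · exact ⟨fun _ => 0, fun _ => by simp, fun h' => absurd h' h⟩
  choose φ hφ1 hφ2 using hφ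
  have hDN : ∀ δ ∈ D, ∀ ξ ∈ du K ((j : FI K) * M), δ * ξ ∈ Nh H F₀ :=
    fun δ hδ ξ hξ => hNz l M δ ξ hl hM (hFT.mem δ ((hDm δ).1 hδ)).2 hξ
  refine ⟨fun s v => Q v (s v), fun s ν => ∑ δ ∈ D, if ν / δ ∈ du K ((j : FI K) * M) then
    φ δ (ν / δ) * ∏ v, kp (rv v) (s v) (wv v δ y ω / α v) else 0,
    fun s v => hAm v (s v), ?_, ?_⟩
  · intro s ν
    refine (norm_sum_le _ _).trans ?_
    have h1 : ∀ δ ∈ D, ‖(if ν / δ ∈ du K ((j : FI K) * M) then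
        φ δ (ν / δ) * ∏ v, kp (rv v) (s v) (wv v δ y ω / α v) else 0 : ℂ)‖ ≤
        if ν / δ ∈ du K ((j : FI K) * M) then (1 : ℝ) else 0 := by
      intro δ _
      split_ifs
      · rw [norm_mul, norm_prod]
        exact mul_le_one₀ (hφ1 δ _) (Finset.prod_nonneg fun v _ => norm_nonneg _)
          (Finset.prod_le_one (fun v _ => norm_nonneg _) fun v _ => norm_kp _ _ _)
      · rw [norm_zero]
    refine (Finset.sum_le_sum h1).trans ?_
    rw [Finset.sum_boole]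
    unfold de
    have h2 : {δ | δ ∈ A ∧ ν / δ ∈ du K ((j : FI K) * M)} =
        ((D.filter fun δ => ν / δ ∈ du K ((j : FI K) * M) : Finset K) : Set K) := by
      ext δ
      simp only [Finset.coe_filter, Set.mem_ofPred_eq, hDm]
    rw [h2, Set.ncard_coe_finset]
  · intro i hi c hc
    obtain ⟨CE, hCE0, hCE⟩ := hE1 N
    have hB0 : 0 ≤ CE * C₁ := mul_nonneg hCE0 hC₁.le
    have hB : ∀ v s m, Rl (rv v) m → ‖El (rv v) (α v) (c v) (Q v s) m‖ ≤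
        (CE * C₁) * (1 + ‖m‖ / max 1 (α v * ‖c v‖)) ^ (-(N : ℝ)) := fun v s m hm =>
      (hCE (rv v) (α v) (c v) m (Q v s) C₁ (hGα v).2.1 (hGα v).2.2.1 (hc v) hm hC₁.le
        (hAm v s)).1
    have haE : ∀ δ ∈ D, ∀ ξ ∈ du K ((j : FI K) * M),
        ‖φ δ ξ * E i (δ * ξ)‖ ≤ D₀ := by
      intro δ hδ ξ hξ
      rw [norm_mul]
      have h1 : ‖E i (δ * ξ)‖ ≤ D₀ := hE i hi _ (hDN δ hδ ξ hξ)
      calc ‖φ δ ξ‖ * ‖E i (δ * ξ)‖ ≤ 1 * D₀ :=
            mul_le_mul (hφ1 δ ξ) h1 (norm_nonneg _) zero_le_one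
        _ = _ := one_mul _
    have hper : ∀ δ ∈ D, _ := fun δ hδ => per_delta hPO hLS hWS hn hfin hq hΨ hN hj0 hM hjM hX
      (cc := cm l r M ρ δ (qq i))
      (hFT.per δ ((hDm δ).1 hδ) i hi) (S := W)
      (a := fun ξ => φ δ ξ * E i (δ * ξ)) (haE δ hδ)
      (fun ξ hξ => by rw [hφ2 δ ((hDm δ).1 hδ) i hi X hX ξ hξ, mul_assoc])
      y hω δ hGα hSep hAm hc hB0 hB (hA δ ((hDm δ).1 hδ))
    have hreg : ∀ s : InfinitePlace K → ℂ, _ := fun s => regroup (du K ((j : FI K) * M))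
      (Nh H F₀) D φ (E i)
      (fun δ v => wv v δ y ω / α v) α Q c s hD0 hDN (fun δ hδ => (hper δ hδ).1 s)
    constructor
    · have h1 : (fun s : InfinitePlace K → ℂ =>
          ∑' ν : {ν : K // ν ∈ Nh H F₀},
          (∑ δ ∈ D, if (ν : K) / δ ∈ du K ((j : FI K) * M) then
          φ δ ((ν : K) / δ) * ∏ v, kp (rv v) (s v) (wv v δ y ω / α v) else 0) *
          (E i ν * Ep α (fun v => Q v (s v)) c ν)) = fun s => ∑ δ ∈ D,
          ∑' ξ : {ξ : K // ξ ∈ du K ((j : FI K) * M)},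
            T2 (fun ξ => φ δ ξ * E i (δ * ξ)) δ (fun v => wv v δ y ω / α v) α Q c ξ s :=
        funext hreg
      rw [h1]
      exact integrable_finsetSum D fun δ hδ => (hper δ hδ).2.1
    · have h1 : ∀ s : InfinitePlace K → ℂ,
          ∑' ν : {ν : K // ν ∈ Nh H F₀},
          (∑ δ ∈ D, if (ν : K) / δ ∈ du K ((j : FI K) * M) then
          φ δ ((ν : K) / δ) * ∏ v, kp (rv v) (s v) (wv v δ y ω / α v) else 0) *
          (E i ν * Ep α (fun v => Q v (s v)) c ν) = ∑ δ ∈ D,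
          ∑' ξ : {ξ : K // ξ ∈ du K ((j : FI K) * M)},
            T2 (fun ξ => φ δ ξ * E i (δ * ξ)) δ (fun v => wv v δ y ω / α v) α Q c ξ s := hreg
      simp_rw [h1]
      rw [integral_finsetSum D fun δ hδ => (hper δ hδ).2.1, Finset.mul_sum]
      unfold OQ
      rw [finsum_mem_eq_finite_toFinset_sum _ hAf]
      refine Finset.sum_congr rfl fun δ hδ => ?_
      have hNj : Nf K l * Nf K H = Nf K j := by
        rw [hj]
        unfold Nf
        rw [map_mul]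
        push_cast
        ring
      rw [hNj, ← (hper δ hδ).2.2]
      have hδM : δ ∈ M := mem_of_two hl2 (hFT.mem δ ((hDm δ).1 hδ)).2
      exact coset_sum hρ hδM (qq i) _ y ω

end Pool.Agent.H49.DF.PA
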